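import Pool.Agent.T3h87.QT.Main

/-!
# Truncated central values of quadratic twists of L-functions, for almost all discriminants in sparse families

Let `K` be a number field and `π` a cuspidal automorphic representation of `PGL_2` over `K`, or any other Euler product
`∏_v ∏_(i < d) (1 - α_i(v) N(v) ^ (-s))⁻¹` of some degree `d` over `K` in the unitary normalisation.  The problem asks whether the
central values of the twists of `L(π, s)` by the quadratic characters `χ_D` are at most `|N(D)| ^ β` for every `β > 0`.  We study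
the products of the Euler factors at `s = 1/2` with `N(v) ≤ x`.  The trivial bound for their logarithms is about `√x` (or
`x ^ (1/2 + θ)`, if the `α_i(v)` are only known to be at most `N(v) ^ θ`), so that the products with `N(v) ≤ (log |N(D)|) ^ A` are at
most `|N(D)| ^ o(1)` if `A < 2`.  For larger `A` nothing of this kind is known for individual `D`.

The theorem says that the logarithms of these products are at most `x ^ δ` in absolute value, for every `δ > 0`, for almost all `D` of
sparse families, for all `x` from a constant up to a fixed power of the sizes.  So the products with `N(v) ≤ (log |N(D)|) ^ A` are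
`|N(D)| ^ o(1)` for every `A`.  The discriminants are the values `D = P(c_1, ..., c_n)` of an arbitrary form `P` of odd degree
over the ring of integers of `K`, for example `D = c_1` for `K = ℚ`, or `D = ∑ c_l ω_l` for an integral basis `ω`, or the values of a
cubic form.  The coefficients `c_l` are independent random members of sparse families of integers, of the six kinds `Kind` (in the
file `Pool.Agent.T3h87.LT.Kinds`): automatic sets (for example missing digits); random integers whose blocks of digits can be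
exchanged; rearrangements of given digits; palindromes; residues with small Fourier coefficients; integer parts of functions of
non-integral order.  `Fam` is a random integer, given by finitely many values with weights, with a size.  In the bound for the
probability of the exceptions there is a factor of a power of the logarithm of the size, which is only needed for automatic sets and
if `T > 0` for the exchangeable blocks; it is absent for the other kinds (`Sharp`, in the file `Pool.Agent.T3h87.QT.Sharp`).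

The parameters `α_i(v)` are arbitrary complex numbers with the conditions `Moderate`, which are known for all cuspidal
representations of `PGL_2` over `ℚ`: they are at most `N(v) ^ θ`, `θ < 1/2`, and bounded in mean square.  No automorphy is used. All the
Euler products of an arbitrary sequence are treated at the same time, the first `x ^ (1 / M)` of them: this includes the values
at the points `1/2 + i τ_j` of the critical line, with the parameters `α_i(v) N(v) ^ (-i τ_j)`.

Method: by the homogeneity of `P` of odd degree the mean of the residue symbol of `P(c)` modulo a prime ideal of degree one over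
all `c` modulo `p` is zero.  For almost all members of sparse families the sums over the primes are close to the sums of the
means.  Here (`Pool.Agent.T3h87.QT.Avg`) this is shown for functions with bounded mean squares on average over the primes.
-/

set_option autoImplicit false

namespace Pool.Agent.Results.MP_21d687_nt.SparseTwists

open Finset NumberField IsDedekindDomain Filter
open Pool.Agent.T3h87.LT (Fam Kind)
open Pool.Agent.T3h87.QT (Sharp)

section
variable {K : Type} [Field K] [NumberField K] {d D : ℕ}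

open Classical in
/-- The quadratic residue symbol of `a` modulo the prime ideal `v`: zero if `a` is in `v`, one if `a` is another square modulo `v`,
and `-1` otherwise. If `N(v)` is odd and `a` squarefree, then this is the value at `v` of the quadratic Hecke character `χ_a`. -/
noncomputable def symbol (v : HeightOneSpectrum (𝓞 K)) (a : 𝓞 K) : ℝ :=
  if Ideal.Quotient.mk v.asIdeal a = 0 then 0 else if IsSquare (Ideal.Quotient.mk v.asIdeal a) then 1 else -1

/-- The product of the Euler factors at `s = 1/2` of the twist by `χ_a`, over the prime ideals `v` of odd norm `N(v) ≤ x`: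
`∏_v ∏_i (1 - α_i(v) χ_a(v) N(v) ^ (-1/2))⁻¹`. -/
noncomputable def truncated (α : HeightOneSpectrum (𝓞 K) → Fin d → ℂ) (a : 𝓞 K) (x : ℕ) : ℂ :=
  ∏ᶠ v ∈ {v : HeightOneSpectrum (𝓞 K) | Odd (Ideal.absNorm v.asIdeal) ∧ Ideal.absNorm v.asIdeal ≤ x},
    ∏ i, (1 - α v i * (symbol v a : ℂ) / ((√(Ideal.absNorm v.asIdeal : ℝ) : ℝ) : ℂ))⁻¹

/-- The conditions on the parameters: `|α_i(v)| ≤ N(v) ^ θ`; the sums of `|α_i(v)| ^ 2 / N(v)` over `N(v) ≤ y` are at most
`B y ^ ε`; and so are the sums of `|α_i(v)| / √N(v)` over the prime ideals with `N(v) ≤ y` which are not of degree one. -/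
structure Moderate (θ ε B : ℝ) (α : HeightOneSpectrum (𝓞 K) → Fin d → ℂ) : Prop where
  size : ∀ v i, ‖α v i‖ ≤ (Ideal.absNorm v.asIdeal : ℝ) ^ θ
  square : ∀ y : ℕ, 1 ≤ y → ∑ᶠ v ∈ {v : HeightOneSpectrum (𝓞 K) | Ideal.absNorm v.asIdeal ≤ y},
    ∑ i, ‖α v i‖ ^ 2 / (Ideal.absNorm v.asIdeal : ℝ) ≤ B * (y : ℝ) ^ ε
  high : ∀ y : ℕ, 1 ≤ y → ∑ᶠ v ∈ {v : HeightOneSpectrum (𝓞 K) | ¬ (Ideal.absNorm v.asIdeal).Prime ∧ Ideal.absNorm v.asIdeal ≤ y},
    ∑ i, ‖α v i‖ / √(Ideal.absNorm v.asIdeal : ℝ) ≤ B * (y : ℝ) ^ ε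

/-- For all `j` with `(j + 1) ^ M ≤ x` the truncated product for the parameters `α j` is between `exp (-x ^ δ)` and `exp (x ^ δ)` in
absolute value. -/
def Good (α : ℕ → HeightOneSpectrum (𝓞 K) → Fin d → ℂ) (δ : ℝ) (M x : ℕ) (a : 𝓞 K) : Prop :=
  ∀ j : ℕ, (j + 1) ^ M ≤ x → Real.exp (-(x : ℝ) ^ δ) ≤ ‖truncated (α j) a x‖ ∧ ‖truncated (α j) a x‖ ≤ Real.exp ((x : ℝ) ^ δ)

open Classical in
/-- Let `𝓕₁, ..., 𝓕_D` be kinds of sparse families (`Kind`) and `0 < δ ≤ 1`. There are `W`, `e`, `M` and `η > 0` such that for all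
`κ₁, ..., κ_D ≠ 0` and all sufficiently large `X` the following holds for all members `f l` of `𝓕 l (κ l)` and all sequences of
parameters `α j` which satisfy the condition `C δ`. Let `c₁, ..., c_D` be independent random integers, `c_l` with the
distribution of `f l`. Up to a probability of at most `X ^ (-η) ∑ (1 + |log Z_l|) ^ e`, where `Z_l` is the size of `f l`, the number
`P(c)` is `Good` for ALL `x ≥ X` with `x ^ W ≤ Z_l` for all `l`. Here `e = 0` if all the kinds are `Sharp`; then the probability is at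
most `D X ^ (-η)`. -/
def Holds (P : MvPolynomial (Fin D) (𝓞 K)) (C : ℝ → (HeightOneSpectrum (𝓞 K) → Fin d → ℂ) → Prop) : Prop :=
  ∀ 𝓕 : Fin D → ℤ → Set Fam, (∀ l, Kind (𝓕 l)) → ∀ δ : ℝ, 0 < δ → δ ≤ 1 →
    ∃ (W e M : ℕ) (η : ℝ), 1 ≤ W ∧ 1 ≤ M ∧ 0 < η ∧ ((∀ l, Sharp (𝓕 l)) → e = 0) ∧ ∀ κ : Fin D → ℤ, (∀ l, κ l ≠ 0) → ∃ X₀ : ℕ, ∀ X : ℕ, X₀ ≤ X →
    ∀ f : Fin D → Fam, (∀ l, f l ∈ 𝓕 l (κ l)) → ∀ α : ℕ → HeightOneSpectrum (𝓞 K) → Fin d → ℂ, (∀ j, C δ (α j)) →
      ∑ i ∈ (Fintype.piFinset fun l => (f l).set).filter (fun i => ¬ ∀ x : ℕ, X ≤ x → (∀ l, (x : ℝ) ^ W ≤ (f l).size) →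
        Good α δ M x (MvPolynomial.eval (fun l => ((f l).val (i l) : 𝓞 K)) P)), ∏ l, (f l).wt (i l) ≤
      (∑ l, (1 + |Real.log (f l).size|) ^ e) * (X : ℝ) ^ (-η)

open Classical in
/-- the parameters at the odd prime ideals -/
noncomputable def oddPart (α : HeightOneSpectrum (𝓞 K) → Fin d → ℂ) (v : HeightOneSpectrum (𝓞 K)) (i : Fin d) : ℂ :=
  if Odd (Ideal.absNorm v.asIdeal) then α v i else 0

lemma oddPart_norm (α : HeightOneSpectrum (𝓞 K) → Fin d → ℂ) (v : HeightOneSpectrum (𝓞 K)) (i : Fin d) :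
    ‖oddPart α v i‖ ≤ ‖α v i‖ := by
  unfold oddPart
  split_ifs
  · exact le_rfl
  · rw [norm_zero]
    exact norm_nonneg _

lemma truncated_eq (α : HeightOneSpectrum (𝓞 K) → Fin d → ℂ) (a : 𝓞 K) (x : ℕ) :
    truncated α a x = Pool.Agent.T3h87.QT.trunc (oddPart α) a x := by
  classical
  have h1 : {v : HeightOneSpectrum (𝓞 K) | Odd (Ideal.absNorm v.asIdeal) ∧ Ideal.absNorm v.asIdeal ≤ x} =
      (((Pool.Agent.N842.HS.VT K x).filter (fun v => Odd (Ideal.absNorm v.asIdeal)) : Finset (HeightOneSpectrum (𝓞 K))) :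
        Set (HeightOneSpectrum (𝓞 K))) := by
    ext v
    rw [mem_coe, mem_filter, Pool.Agent.N842.HS.mem_VT]
    exact and_comm
  unfold truncated Pool.Agent.T3h87.QT.trunc
  rw [h1, finprod_mem_coe_finset, prod_filter]
  refine prod_congr rfl fun v _ => ?_
  split_ifs with h2
  · refine prod_congr rfl fun i _ => ?_
    unfold oddPart
    rw [if_pos h2]
    rfl
  · symm
    refine prod_eq_one fun i _ => ?_
    unfold oddPart
    rw [if_neg h2, zero_mul, zero_div, sub_zero, inv_one]

lemma mod_of {θ ε B : ℝ} {α : HeightOneSpectrum (𝓞 K) → Fin d → ℂ} (hα : Moderate θ ε B α) :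
    Pool.Agent.T3h87.QT.Mod θ ε B (oddPart α) := by
  classical
  refine ⟨fun v i => (oddPart_norm α v i).trans (hα.size v i), fun y hy => ?_, fun y hy S hS hS' => ?_⟩
  · have h1 : {v : HeightOneSpectrum (𝓞 K) | Ideal.absNorm v.asIdeal ≤ y} =
        ((Pool.Agent.N842.HS.VT K y : Finset (HeightOneSpectrum (𝓞 K))) : Set (HeightOneSpectrum (𝓞 K))) := by
      ext v
      rw [mem_coe, Pool.Agent.N842.HS.mem_VT]
      exact Iff.rfl
    have h2 := hα.square y hy
    rw [h1, finsum_mem_coe_finset] at h2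
    refine le_trans (sum_le_sum fun v _ => sum_le_sum fun i _ => ?_) h2
    exact div_le_div_of_nonneg_right (pow_le_pow_left₀ (norm_nonneg _) (oddPart_norm α v i) 2) (Nat.cast_nonneg _)
  · have h1 : {v : HeightOneSpectrum (𝓞 K) | ¬ (Ideal.absNorm v.asIdeal).Prime ∧ Ideal.absNorm v.asIdeal ≤ y} =
        (((Pool.Agent.N842.HS.VT K y).filter (fun v => ¬ (Ideal.absNorm v.asIdeal).Prime) : Finset (HeightOneSpectrum (𝓞 K))) :
          Set (HeightOneSpectrum (𝓞 K))) := by
      ext v
      rw [mem_coe, mem_filter, Pool.Agent.N842.HS.mem_VT]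
      exact and_comm
    have h2 := hα.high y hy
    rw [h1, finsum_mem_coe_finset] at h2
    refine le_trans ?_ h2
    refine le_trans (sum_le_sum fun v _ => sum_le_sum fun i _ =>
      div_le_div_of_nonneg_right (oddPart_norm α v i) (Real.sqrt_nonneg _)) ?_
    refine sum_le_sum_of_subset_of_nonneg (fun v hv => mem_filter.2 ⟨hS hv, hS' v hv⟩) fun v _ _ => sum_nonneg fun i _ => ?_
    positivity

/-- parameters of absolute value at most one satisfy the conditions -/
lemma tempered (ε : ℝ) (hε : 0 < ε) : ∃ B : ℝ, 1 ≤ B ∧ ∀ α : HeightOneSpectrum (𝓞 K) → Fin d → ℂ, (∀ v i, ‖α v i‖ ≤ 1) →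
    Moderate 0 ε B α := by
  classical
  have hn0 : (0 : ℝ) ≤ Module.finrank ℤ (𝓞 K) := Nat.cast_nonneg _
  have hd0 : (0 : ℝ) ≤ d := Nat.cast_nonneg _
  obtain ⟨B, hB⟩ : ∃ B : ℝ, B = 1 + d * (Module.finrank ℤ (𝓞 K) * (1 + 1 / ε)) := ⟨_, rfl⟩
  have hBb : ∀ y : ℕ, 1 ≤ y → (d : ℝ) * (Module.finrank ℤ (𝓞 K) * (1 + Real.log y)) ≤ B * (y : ℝ) ^ ε := by
    intro y hy
    have hy1 : (1 : ℝ) ≤ y := by exact_mod_cast hy
    have hyε : 1 ≤ (y : ℝ) ^ ε := Real.one_le_rpow hy1 hε.le
    have h1 := Real.log_le_rpow_div (by linarith : (0 : ℝ) ≤ y) hε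
    have h2 : 1 + Real.log y ≤ (1 + 1 / ε) * (y : ℝ) ^ ε := by
      rw [add_mul, one_mul, one_div, inv_mul_eq_div]
      linarith
    calc (d : ℝ) * (Module.finrank ℤ (𝓞 K) * (1 + Real.log y)) ≤ d * (Module.finrank ℤ (𝓞 K) * ((1 + 1 / ε) * (y : ℝ) ^ ε)) :=
          mul_le_mul_of_nonneg_left (mul_le_mul_of_nonneg_left h2 hn0) hd0
      _ = (B - 1) * (y : ℝ) ^ ε := by rw [hB]; ring
      _ ≤ _ := mul_le_mul_of_nonneg_right (by linarith) (by linarith)
  refine ⟨B, ?_, fun α hα => ⟨fun v i => ?_, fun y hy => ?_, fun y hy => ?_⟩⟩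
  · have : 0 ≤ (d : ℝ) * (Module.finrank ℤ (𝓞 K) * (1 + 1 / ε)) := by positivity
    linarith
  · rw [Real.rpow_zero]
    exact hα v i
  · have h1 : {v : HeightOneSpectrum (𝓞 K) | Ideal.absNorm v.asIdeal ≤ y} =
        ((Pool.Agent.N842.HS.VT K y : Finset (HeightOneSpectrum (𝓞 K))) : Set (HeightOneSpectrum (𝓞 K))) := by
      ext v
      rw [mem_coe, Pool.Agent.N842.HS.mem_VT]
      exact Iff.rfl
    rw [h1, finsum_mem_coe_finset]
    refine le_trans ?_ (hBb y hy)
    have h2 : ∀ v ∈ Pool.Agent.N842.HS.VT K y, ∑ i, ‖α v i‖ ^ 2 / (Ideal.absNorm v.asIdeal : ℝ) ≤ d * (1 / (Ideal.absNorm v.asIdeal : ℝ)) := by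
      intro v _
      refine (sum_le_sum fun i _ => div_le_div_of_nonneg_right (pow_le_one₀ (norm_nonneg _) (hα v i)) (Nat.cast_nonneg _)).trans ?_
      rw [sum_const, card_univ, Fintype.card_fin, nsmul_eq_mul]
    refine (sum_le_sum h2).trans ?_
    rw [← mul_sum]
    apply mul_le_mul_of_nonneg_left _ hd0
    refine Pool.Agent.T3h87.QT.sum_above y hy _ (Subset.refl _) _ fun v _ p f hp hf h => ?_
    rw [h]
    have h3 : p ≤ p ^ f := Nat.le_self_pow (by omega) p
    exact one_div_le_one_div_of_le (by exact_mod_cast hp.pos) (by exact_mod_cast h3)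
  · have h1 : {v : HeightOneSpectrum (𝓞 K) | ¬ (Ideal.absNorm v.asIdeal).Prime ∧ Ideal.absNorm v.asIdeal ≤ y} =
        (((Pool.Agent.N842.HS.VT K y).filter (fun v => ¬ (Ideal.absNorm v.asIdeal).Prime) : Finset (HeightOneSpectrum (𝓞 K))) :
          Set (HeightOneSpectrum (𝓞 K))) := by
      ext v
      rw [mem_coe, mem_filter, Pool.Agent.N842.HS.mem_VT]
      exact and_comm
    rw [h1, finsum_mem_coe_finset]
    refine le_trans ?_ (hBb y hy)
    have h2 : ∀ v ∈ (Pool.Agent.N842.HS.VT K y).filter (fun v => ¬ (Ideal.absNorm v.asIdeal).Prime),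
        ∑ i, ‖α v i‖ / √(Ideal.absNorm v.asIdeal : ℝ) ≤ d * (1 / √(Ideal.absNorm v.asIdeal : ℝ)) := by
      intro v _
      refine (sum_le_sum fun i _ => div_le_div_of_nonneg_right (hα v i) (Real.sqrt_nonneg _)).trans ?_
      rw [sum_const, card_univ, Fintype.card_fin, nsmul_eq_mul]
    refine (sum_le_sum h2).trans ?_
    rw [← mul_sum]
    apply mul_le_mul_of_nonneg_left _ hd0
    refine Pool.Agent.T3h87.QT.sum_above y hy _ (filter_subset _ _) _ fun v hv p f hp hf h => ?_
    have h5 : 2 ≤ f := by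
      by_contra hcon
      have h6 : f = 1 := by omega
      apply (mem_filter.1 hv).2
      rw [h, h6, pow_one]
      exact hp
    have hp0 : (0 : ℝ) < p := by exact_mod_cast hp.pos
    apply one_div_le_one_div_of_le hp0
    apply Real.le_sqrt_of_sq_le
    rw [h]
    exact_mod_cast Nat.pow_le_pow_right hp.pos h5

theorem holds_main {k : ℕ} (P : MvPolynomial (Fin D) (𝓞 K)) (hP : P.IsHomogeneous k) (hk : Odd k) (θ B : ℝ) (hθ : θ < 1 / 2)
    (hB : 1 ≤ B) : Holds P (fun δ (α : HeightOneSpectrum (𝓞 K) → Fin d → ℂ) => Moderate θ (δ / 16) B α) := by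
  classical
  intro 𝓕 h𝓕 δ hδ hδ1
  obtain ⟨W, e, M, η, hW, hM, hη, hS, H⟩ := Pool.Agent.T3h87.QT.qt_main (d := d) P hP hk 𝓕 h𝓕 θ B hθ hB δ hδ hδ1
  refine ⟨W, e, M, η, hW, hM, hη, hS, fun κ hκ => ?_⟩
  obtain ⟨X₀, J⟩ := H κ hκ
  refine ⟨X₀ + 1, fun X hX f hf α hα => ?_⟩
  refine J X (by omega) f hf (fun j => oddPart (α j)) (fun j => mod_of (hα j)) _ (filter_subset _ _) fun i hi => ?_
  have h1 := (mem_filter.1 hi).2
  push Not at h1
  obtain ⟨x, q1, q2, q3⟩ := h1
  unfold Good at q3
  push Not at q3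
  obtain ⟨j, q4, q5⟩ := q3
  refine ⟨x, q1, q2, j, q4, ?_⟩
  by_contra hcon
  push Not at hcon
  obtain ⟨g1, g2⟩ := abs_le.1 hcon
  have hpos := (Pool.Agent.T3h87.QT.log_trunc (oddPart (α j)) θ (δ / 16) B hθ (mod_of (hα j))
    (Pool.Agent.T3h87.QT.ev P (fun l => (f l).val (i l))) x (by omega)).1
  have h2 := Real.exp_le_exp.2 g1
  have h3 := Real.exp_le_exp.2 g2
  rw [Real.exp_log hpos] at h2 h3
  rw [truncated_eq] at q5
  exact absurd h3 (not_le.2 (q5 h2))

end

/-- **Part 1.** Let `K` be a number field and `P` a form of odd degree in `D` variables with coefficients in the ring of integers of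
`K`.  Let `d ≥ 0`, `θ < 1/2` and `B ≥ 1`.  Then `Holds` for all sequences of parameters `α j` with `Moderate θ (δ / 16) B (α j)`: for
almost all `c_1, ..., c_D` from sparse families the truncated products at `s = 1/2` of the Euler products of degree `d` with the
parameters `α j`, twisted by the quadratic character of `P(c)`, are between `exp (-x ^ δ)` and `exp (x ^ δ)`, for all `x` between `X`
and a fixed power of the sizes and for all `j ≤ x ^ (1 / M) - 1`.

**Part 2.** This holds for all sequences of parameters of absolute value at most one. -/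
theorem result : ∀ (K : Type) [Field K] [NumberField K] (D k d : ℕ) (P : MvPolynomial (Fin D) (𝓞 K)), P.IsHomogeneous k → Odd k →
    (∀ θ B : ℝ, θ < 1 / 2 → 1 ≤ B → Holds P (fun δ (α : HeightOneSpectrum (𝓞 K) → Fin d → ℂ) => Moderate θ (δ / 16) B α)) ∧
    Holds P (fun _ (α : HeightOneSpectrum (𝓞 K) → Fin d → ℂ) => ∀ v i, ‖α v i‖ ≤ 1) := by
  intro K _ _ D k d P hP hk
  refine ⟨fun θ B hθ hB => holds_main P hP hk θ B hθ hB, ?_⟩
  intro 𝓕 h𝓕 δ hδ hδ1
  obtain ⟨B, hB, hmod⟩ := tempered (K := K) (d := d) (δ / 16) (by positivity)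
  obtain ⟨W, e, M, η, hW, hM, hη, hS, H⟩ := holds_main (d := d) P hP hk 0 B (by norm_num) hB 𝓕 h𝓕 δ hδ hδ1
  refine ⟨W, e, M, η, hW, hM, hη, hS, fun κ hκ => ?_⟩
  obtain ⟨X₀, J⟩ := H κ hκ
  exact ⟨X₀, fun X hX f hf α hα => J X hX f hf α fun j => hmod (α j) (hα j)⟩

end Pool.Agent.Results.MP_21d687_nt.SparseTwists
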